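import Pool.Agent.H91.TJ.Stm

set_option autoImplicit false

/-!
# Two-sided addresses: basic facts on `mu`, `EE`, `Agr`
-/

namespace Pool.Agent.H91.TJ

open Finset
open Pool.Agent.Y516.OJ (Fam wt Wt EE ind Disj nInt nErr Prot tot)
open Pool.Agent.Y85.OJ (ind_nonneg ind_true ind_false Wt_nonneg EE_mono EE_nonneg EE_sum sum_Wt)

variable {u k : ℕ} {α : ℝ}

theorem ind_le_one (P : Prop) : ind P ≤ 1 := by
  unfold ind
  split_ifs <;> norm_num

theorem ind_and (P Q : Prop) : ind (P ∧ Q) = ind P * ind Q := by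
  by_cases h1 : P
  · by_cases h2 : Q
    · rw [ind_true ⟨h1, h2⟩, ind_true h1, ind_true h2, one_mul]
    · rw [ind_false (fun h => h2 h.2), ind_false h2, mul_zero]
  · rw [ind_false (fun h => h1 h.1), ind_false h1, zero_mul]

theorem ind_mono {P Q : Prop} (h : P → Q) : ind P ≤ ind Q := by
  by_cases h1 : P
  · rw [ind_true h1, ind_true (h h1)]
  · rw [ind_false h1]
    exact ind_nonneg Q

theorem ind_congr {P Q : Prop} (h : P ↔ Q) : ind P = ind Q := by
  rw [propext h]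

theorem mu_nonneg (h0 : 0 ≤ α) (h1 : α ≤ 1) (F : Fam u k → Prop) : 0 ≤ mu α F := by
  unfold mu
  exact sum_nonneg fun X _ => mul_nonneg (Wt_nonneg h0 h1 X) (ind_nonneg _)

theorem mu_mono (h0 : 0 ≤ α) (h1 : α ≤ 1) {F G : Fam u k → Prop} (h : ∀ X, F X → G X) :
    mu α F ≤ mu α G := by
  unfold mu
  exact sum_le_sum fun X _ => mul_le_mul_of_nonneg_left (ind_mono (h X)) (Wt_nonneg h0 h1 X)

theorem mu_le_one (h0 : 0 ≤ α) (h1 : α ≤ 1) (F : Fam u k → Prop) : mu α F ≤ 1 := by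
  unfold mu
  calc ∑ X, Wt α X * ind (F X) ≤ ∑ X : Fam u k, Wt α X :=
        sum_le_sum fun X _ => mul_le_of_le_one_right (Wt_nonneg h0 h1 X) (ind_le_one _)
    _ = 1 := sum_Wt α u k

theorem EE_prod (F G : Fam u k → Prop) :
    EE α (fun X Y => ind (F X) * ind (G Y)) = mu α F * mu α G := by
  unfold EE mu
  rw [sum_mul_sum]
  refine sum_congr rfl fun X _ => sum_congr rfl fun Y _ => ?_
  ring

theorem EE_pair (h : Fam u k → Fam u k → ℝ) :
    EE α h = ∑ ω : Fam u k × Fam u k, Wt α ω.1 * Wt α ω.2 * h ω.1 ω.2 := by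
  unfold EE
  rw [← univ_product_univ, sum_product]

theorem xx_le (h0 : 0 ≤ α) (h1 : α ≤ 1) (D : Finset (Fin k × Fin k)) (F G : Fam u k → Prop) :
    xx α D F G ≤ mu α F * mu α G := by
  rw [← EE_prod]
  unfold xx
  exact EE_mono h0 h1 fun X Y => mul_le_of_le_one_right
    (mul_nonneg (ind_nonneg _) (ind_nonneg _)) (ind_le_one _)

theorem Agr.trans' {E E1 : Finset (Fin u × Fin k)} {X0 X1 X : Fam u k} (hE : E ⊆ E1)
    (h1 : Agr E X0 X1) (h2 : Agr E1 X1 X) : Agr E X0 X := by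
  intro c hc
  rw [h2 c (hE hc), h1 c hc]

end Pool.Agent.H91.TJ
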