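import Pool.Agent.H91.TJ.Bas

set_option autoImplicit false

/-!
# Two-sided addresses: one step of the purification
-/

namespace Pool.Agent.H91.TJ

open Finset
open Pool.Agent.Y516.OJ (Fam wt Wt EE ind Disj nInt nErr Prot tot)
open Pool.Agent.Y85.OJ (ind_nonneg ind_true ind_false Wt_nonneg EE_mono EE_nonneg EE_sum sum_Wt)

/-- the values on `E` -/
def mask {u k : ℕ} (E : Finset (Fin u × Fin k)) (X : Fam u k) : Fam u k :=
  fun e i => if (e, i) ∈ E then X e i else false

theorem mask_eq {u k : ℕ} {E : Finset (Fin u × Fin k)} {X X' : Fam u k} :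
    mask E X = mask E X' ↔ Agr E X' X := by
  constructor
  · intro h c hc
    have h1 := congrFun (congrFun h c.1) c.2
    unfold mask at h1
    rw [if_pos hc, if_pos hc] at h1
    exact h1
  · intro h
    funext e i
    unfold mask
    by_cases hc : (e, i) ∈ E
    · rw [if_pos hc, if_pos hc]
      exact h (e, i) hc
    · rw [if_neg hc, if_neg hc]

theorem trues_congr {u k : ℕ} {E E1 : Finset (Fin u × Fin k)} (hE : E ⊆ E1) {X X' : Fam u k}
    (h : Agr E1 X' X) : trues E X = trues E X' := by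
  unfold trues
  congr 1
  refine filter_congr fun c hc => ?_
  rw [h c (hE hc)]

theorem Agr.symm' {u k : ℕ} {E : Finset (Fin u × Fin k)} {X X' : Fam u k} (h : Agr E X X') :
    Agr E X' X := fun c hc => (h c hc).symm

theorem Bad.congr' {u k : ℕ} {D : Finset (Fin k × Fin k)} {AX AY E1 E1' : Finset (Fin u × Fin k)}
    (h1 : AX ⊆ E1) (h2 : AY ⊆ E1') {X X' Y Y' : Fam u k} (hX : Agr E1 X X') (hY : Agr E1' Y Y')
    (h : Bad D AX AY X Y) : Bad D AX AY X' Y' := by
  obtain ⟨d, hd, e, ha, hb, hc, he⟩ := h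
  refine ⟨d, hd, e, ha, hb, ?_, ?_⟩
  · rw [← hc]
    exact hX (e, d.1) (h1 ha)
  · rw [← he]
    exact hY (e, d.2) (h2 hb)

theorem t_STEP (hMOM : S_MOM) (hCNT : S_CNT) (hSIZ : S_SIZ) (hCSL : S_CSL) (hDIC : S_DIC) :
    S_STEP := by
  classical
  intro u k m q M D F G E E' X0 Y0 hDm hm hq hM hu hx0 hyx ht ht'
  have hM2 : 2 ≤ M := by nlinarith
  have hMR : (35328 : ℝ) * (q : ℝ) ^ 2 ≤ M := by exact_mod_cast hM
  have hqR : (5 : ℝ) ≤ q := by exact_mod_cast hq
  have hMpos : (0 : ℝ) < M := by nlinarith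
  obtain ⟨α, hα⟩ : ∃ α : ℝ, α = 1 / (M : ℝ) := ⟨_, rfl⟩
  have hα0 : 0 < α := by rw [hα]; positivity
  have hα1 : α ≤ 1 := by
    rw [hα, div_le_one hMpos]
    have : (2 : ℝ) ≤ M := by exact_mod_cast hM2
    linarith
  obtain ⟨Ft, hFt⟩ : ∃ Ft : Fam u k → Prop, Ft = fun X => F X ∧ Agr E X0 X := ⟨_, rfl⟩
  obtain ⟨Gt, hGt⟩ : ∃ Gt : Fam u k → Prop, Gt = fun Y => G Y ∧ Agr E' Y0 Y := ⟨_, rfl⟩
  have hFtA : ∀ X, Ft X → Agr E X0 X := fun X h => by rw [hFt] at h; exact h.2
  have hGtA : ∀ Y, Gt Y → Agr E' Y0 Y := fun Y h => by rw [hGt] at h; exact h.2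
  rw [← hα, ← hFt, ← hGt] at hx0 hyx
  have key : (1 / 2 * (mu α Ft * mu α Gt) ≤
      EE α (fun X Y => ind (Ft X) * ind (Gt Y) * ind (2 * nInt D X Y ≤ m))) ∨
      ∃ (E1 E1' : Finset (Fin u × Fin k)) (X1 Y1 : Fam u k),
      E ⊆ E1 ∧ E' ⊆ E1' ∧ Agr E X0 X1 ∧ Agr E' Y0 Y1 ∧
      E1.card ≤ E.card + q * M ∧ E1'.card ≤ E'.card + q * M ∧
      trues E1 X1 ≤ trues E X0 + 6 * q ∧ trues E1' Y1 ≤ trues E' Y0 + 6 * q ∧
      0 < xx α D (fun X => F X ∧ Agr E1 X1 X) (fun Y => G Y ∧ Agr E1' Y1 Y) ∧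
      ((mu α (fun X => F X ∧ Agr E1 X1 X) *
          mu α (fun Y => G Y ∧ Agr E1' Y1 Y)) *
        (mu α (Agr E1 X1) * mu α (Agr E1' Y1))) *
        xx α D Ft Gt ^ 2 ≤
      7 / 8 * ((mu α Ft * mu α Gt) *
        (mu α (Agr E X0) * mu α (Agr E' Y0))) *
        xx α D (fun X => F X ∧ Agr E1 X1 X) (fun Y => G Y ∧ Agr E1' Y1 Y) ^ 2 := by
    obtain ⟨x, hx⟩ : ∃ x, x = xx α D Ft Gt := ⟨_, rfl⟩
    rw [← hx] at hx0 hyx
    have hxy : x ≤ mu α Ft * mu α Gt := by rw [hx]; exact xx_le hα0.le hα1 D Ft Gt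
    have hF0 := mu_nonneg hα0.le hα1 Ft
    have hG0 := mu_nonneg hα0.le hα1 Gt
    have hyp : 0 < mu α Ft * mu α Gt := lt_of_lt_of_le hx0 hxy
    have hFp : 0 < mu α Ft := by
      rcases hF0.lt_or_eq with h | h
      · exact h
      · rw [← h, zero_mul] at hyp; exact absurd hyp (lt_irrefl _)
    have hGp : 0 < mu α Gt := by
      rcases hG0.lt_or_eq with h | h
      · exact h
      · rw [← h, mul_zero] at hyp; exact absurd hyp (lt_irrefl _)
    have hFn : mu α Ft ≤ mu α (Agr E X0) := mu_mono hα0.le hα1 hFtA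
    have hGn : mu α Gt ≤ mu α (Agr E' Y0) := mu_mono hα0.le hα1 hGtA
    have h4 : (0 : ℝ) < 4 ^ q := by positivity
    have hνx : mu α (Agr E X0) * mu α (Agr E' Y0) ≤ 4 ^ q * x := by
      have h1 : x * (mu α (Agr E X0) * mu α (Agr E' Y0)) ≤ x * (4 ^ q * x) := by
        calc x * (mu α (Agr E X0) * mu α (Agr E' Y0))
            ≤ (mu α Ft * mu α Gt) * (mu α (Agr E X0) * mu α (Agr E' Y0)) :=
              mul_le_mul_of_nonneg_right hxy (mul_nonneg (hF0.trans hFn) (hG0.trans hGn))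
          _ ≤ 4 ^ q * x ^ 2 := hyx
          _ = x * (4 ^ q * x) := by ring
      exact le_of_mul_le_mul_left h1 hx0
    have hνy : mu α (Agr E X0) * mu α (Agr E' Y0) ≤ 4 ^ q * (mu α Ft * mu α Gt) :=
      hνx.trans (mul_le_mul_of_nonneg_left hxy h4.le)
    have hFq : mu α (Agr E X0) ≤ 4 ^ q * mu α Ft := by
      have h1 : mu α (Agr E' Y0) * mu α (Agr E X0) ≤ mu α (Agr E' Y0) * (4 ^ q * mu α Ft) := by
        calc mu α (Agr E' Y0) * mu α (Agr E X0) = mu α (Agr E X0) * mu α (Agr E' Y0) := by ring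
          _ ≤ 4 ^ q * (mu α Ft * mu α Gt) := hνy
          _ = (4 ^ q * mu α Ft) * mu α Gt := by ring
          _ ≤ (4 ^ q * mu α Ft) * mu α (Agr E' Y0) :=
              mul_le_mul_of_nonneg_left hGn (mul_nonneg h4.le hF0)
          _ = _ := by ring
      exact le_of_mul_le_mul_left h1 (lt_of_lt_of_le hGp hGn)
    have hGq : mu α (Agr E' Y0) ≤ 4 ^ q * mu α Gt := by
      have h1 : mu α (Agr E X0) * mu α (Agr E' Y0) ≤ mu α (Agr E X0) * (4 ^ q * mu α Gt) := by
        calc mu α (Agr E X0) * mu α (Agr E' Y0) ≤ 4 ^ q * (mu α Ft * mu α Gt) := hνy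
          _ = (4 ^ q * mu α Gt) * mu α Ft := by ring
          _ ≤ (4 ^ q * mu α Gt) * mu α (Agr E X0) :=
              mul_le_mul_of_nonneg_left hFn (mul_nonneg h4.le hG0)
          _ = _ := by ring
      exact le_of_mul_le_mul_left h1 (lt_of_lt_of_le hFp hFn)
    -- the heavy coordinates
    obtain ⟨AX, hAX⟩ : ∃ AX : Finset (Fin u × Fin k), AX = univ.filter fun c =>
      4 * α * mu α Ft ≤ mu α (fun X => Ft X ∧ X c.1 c.2 = true) := ⟨_, rfl⟩
    obtain ⟨AY, hAY⟩ : ∃ AY : Finset (Fin u × Fin k), AY = univ.filter fun c =>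
      4 * α * mu α Gt ≤ mu α (fun Y => Gt Y ∧ Y c.1 c.2 = true) := ⟨_, rfl⟩
    have hcA : (AX \ E).card ≤ q * M := by
      refine hCNT u k q M E (AX \ E) X0 Ft hq hM2 disjoint_sdiff hFtA ?_ ?_ ?_
      · rw [← hα]; exact hFp
      · rw [← hα]; exact hFq
      · intro c hc
        rw [← hα]
        have h1 := (mem_sdiff.1 hc).1
        rw [hAX, mem_filter] at h1
        exact h1.2
    have hcA' : (AY \ E').card ≤ q * M := by
      refine hCNT u k q M E' (AY \ E') Y0 Gt hq hM2 disjoint_sdiff hGtA ?_ ?_ ?_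
      · rw [← hα]; exact hGp
      · rw [← hα]; exact hGq
      · intro c hc
        rw [← hα]
        have h1 := (mem_sdiff.1 hc).1
        rw [hAY, mem_filter] at h1
        exact h1.2
    by_cases hcase : 3 / 4 * (mu α Ft * mu α Gt) ≤
        EE α (fun X Y => ind (Ft X) * ind (Gt Y) * ind (¬ Bad D AX AY X Y))
    · left
      obtain ⟨S, hS⟩ : ∃ S : ℝ, S = 66 * (q : ℝ) ^ 2 + 2 * q + 2 + 3 / 2 * ((u : ℝ) / M) :=
        ⟨_, rfl⟩
      have huR : (768 : ℝ) * u ≤ (M : ℝ) ^ 2 := by exact_mod_cast hu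
      have h := hDIC u k m M S D Ft Gt AX AY hDm hm hM2
      rw [← hα] at h
      refine h ?_ ?_ ?_ ?_ ?_ hcase
      · intro c hc
        by_contra hcon
        apply hc
        rw [hAX, mem_filter]
        exact ⟨mem_univ _, (not_le.1 hcon).le⟩
      · intro c hc
        by_contra hcon
        apply hc
        rw [hAY, mem_filter]
        exact ⟨mem_univ _, (not_le.1 hcon).le⟩
      · intro i
        have h1 := hSIZ u k q M E X0 Ft i hM2 hFtA (by rw [← hα]; exact hFq)
        rw [← hα] at h1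
        refine h1.trans (mul_le_mul_of_nonneg_right ?_ hF0)
        have h2 : (trues E X0 : ℝ) ≤ 66 * (q : ℝ) ^ 2 := by exact_mod_cast ht
        rw [hS]
        linarith
      · intro j
        have h1 := hSIZ u k q M E' Y0 Gt j hM2 hGtA (by rw [← hα]; exact hGq)
        rw [← hα] at h1
        refine h1.trans (mul_le_mul_of_nonneg_right ?_ hG0)
        have h2 : (trues E' Y0 : ℝ) ≤ 66 * (q : ℝ) ^ 2 := by exact_mod_cast ht'
        rw [hS]
        linarith
      · have h3 : (u : ℝ) / M ≤ M / 768 := by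
          rw [div_le_div_iff₀ hMpos (by norm_num)]
          nlinarith
        have h4' : S ≤ M * (1 / 64) := by
          rw [hS]
          nlinarith
        rw [div_le_iff₀ hMpos]
        linarith
    · right
      push Not at hcase
      have hcsl := hCSL (Fam u k × Fam u k) (Fam u k × Fam u k)
        (fun ω => Wt α ω.1 * Wt α ω.2)
        (fun ω => (mask (E ∪ (AX \ E)) ω.1, mask (E' ∪ (AY \ E')) ω.2))
        (fun ω => Agr E X0 ω.1 ∧ Agr E' Y0 ω.2) (fun ω => Ft ω.1 ∧ Gt ω.2)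
        (fun ω => ∀ d ∈ D, Disj ω.1 ω.2 d) (fun ω => Bad D AX AY ω.1 ω.2)
        (fun ω => 5 * q + 6 ≤ trues (AX \ E) ω.1 + trues (AY \ E') ω.2)
        (fun ω => mul_nonneg (Wt_nonneg hα0.le hα1 _) (Wt_nonneg hα0.le hα1 _))
        (fun ω h => ⟨hFtA _ h.1, hGtA _ h.2⟩)
        (by
          rintro ω h ⟨d, hd, e, _, _, h1, h2⟩
          exact h d hd e ⟨h1, h2⟩)
        (by
          intro ω ω' h
          rw [Prod.mk.injEq, mask_eq, mask_eq] at h
          have s1 : AX ⊆ E ∪ (AX \ E) := fun c hc => by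
            by_cases hcE : c ∈ E
            · exact mem_union_left _ hcE
            · exact mem_union_right _ (mem_sdiff.2 ⟨hc, hcE⟩)
          have s2 : AY ⊆ E' ∪ (AY \ E') := fun c hc => by
            by_cases hcE : c ∈ E'
            · exact mem_union_left _ hcE
            · exact mem_union_right _ (mem_sdiff.2 ⟨hc, hcE⟩)
          exact ⟨fun hb => hb.congr' s1 s2 h.1.symm' h.2.symm', fun hb => hb.congr' s1 s2 h.1 h.2⟩)
        (by
          intro ω ω' h
          rw [Prod.mk.injEq, mask_eq, mask_eq] at h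
          rw [trues_congr subset_union_right h.1, trues_congr subset_union_right h.2])
      have e1 : ∑ ω : Fam u k × Fam u k, Wt α ω.1 * Wt α ω.2 *
          ind ((Ft ω.1 ∧ Gt ω.2) ∧ ∀ d ∈ D, Disj ω.1 ω.2 d) = x := by
        rw [hx]
        unfold xx
        rw [EE_pair]
        refine sum_congr rfl fun ω _ => ?_
        rw [ind_and, ind_and]
      have e2 : ∑ ω : Fam u k × Fam u k, Wt α ω.1 * Wt α ω.2 * ind (Ft ω.1 ∧ Gt ω.2) =
          mu α Ft * mu α Gt := by
        rw [← EE_prod, EE_pair]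
        refine sum_congr rfl fun ω _ => ?_
        rw [ind_and]
      have e3 : ∑ ω : Fam u k × Fam u k, Wt α ω.1 * Wt α ω.2 *
          ind (Agr E X0 ω.1 ∧ Agr E' Y0 ω.2) = mu α (Agr E X0) * mu α (Agr E' Y0) := by
        rw [← EE_prod, EE_pair]
        refine sum_congr rfl fun ω _ => ?_
        rw [ind_and]
      have e4 : ∑ ω : Fam u k × Fam u k, Wt α ω.1 * Wt α ω.2 *
          ind ((Ft ω.1 ∧ Gt ω.2) ∧ ¬ Bad D AX AY ω.1 ω.2) =
          EE α (fun X Y => ind (Ft X) * ind (Gt Y) * ind (¬ Bad D AX AY X Y)) := by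
        rw [EE_pair]
        refine sum_congr rfl fun ω _ => ?_
        rw [ind_and, ind_and]
      simp only [e1, e2, e3, e4] at hcsl
      have hbig : ∑ ω : Fam u k × Fam u k, Wt α ω.1 * Wt α ω.2 *
          ind ((Agr E X0 ω.1 ∧ Agr E' Y0 ω.2) ∧
            5 * q + 6 ≤ trues (AX \ E) ω.1 + trues (AY \ E') ω.2) ≤ 1 / 16 * x := by
        obtain ⟨L, hL⟩ : ∃ L, L = (3 * q + 1) / 2 := ⟨_, rfl⟩
        have hL1 : 3 * q ≤ 2 * L := by omega
        have hL2 : 2 * L ≤ 3 * q + 1 := by omega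
        have hLR : (3 / 2 : ℝ) * q ≤ L := by
          have : (3 : ℝ) * q ≤ 2 * L := by exact_mod_cast hL1
          linarith
        have hm1 : ∀ (B : Finset (Fin u × Fin k)), B.card ≤ q * M → 3 / 2 * α * B.card ≤ L := by
          intro B hB
          have h1 : (B.card : ℝ) ≤ q * M := by exact_mod_cast hB
          have h2 : α * (q * M) = q := by rw [hα]; field_simp
          calc 3 / 2 * α * B.card ≤ 3 / 2 * α * (q * M) :=
                mul_le_mul_of_nonneg_left h1 (by positivity)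
            _ = 3 / 2 * (α * (q * M)) := by ring
            _ = 3 / 2 * q := by rw [h2]
            _ ≤ L := hLR
        have m1 := hMOM u k L α E (AX \ E) X0 hα0.le hα1 disjoint_sdiff (hm1 _ hcA)
        have m2 := hMOM u k L α E' (AY \ E') Y0 hα0.le hα1 disjoint_sdiff (hm1 _ hcA')
        have hpt : ∀ ω : Fam u k × Fam u k, Wt α ω.1 * Wt α ω.2 *
            ind ((Agr E X0 ω.1 ∧ Agr E' Y0 ω.2) ∧
              5 * q + 6 ≤ trues (AX \ E) ω.1 + trues (AY \ E') ω.2) ≤
            1 / 2 ^ (5 * q + 6) * ((Wt α ω.1 * (ind (Agr E X0 ω.1) * 2 ^ trues (AX \ E) ω.1)) *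
              (Wt α ω.2 * (ind (Agr E' Y0 ω.2) * 2 ^ trues (AY \ E') ω.2))) := by
          intro ω
          have hw1 := Wt_nonneg hα0.le hα1 ω.1
          have hw2 := Wt_nonneg hα0.le hα1 ω.2
          rw [ind_and, ind_and]
          have hi : ind (5 * q + 6 ≤ trues (AX \ E) ω.1 + trues (AY \ E') ω.2) ≤
              1 / 2 ^ (5 * q + 6) * (2 ^ trues (AX \ E) ω.1 * 2 ^ trues (AY \ E') ω.2) := by
            by_cases hb : 5 * q + 6 ≤ trues (AX \ E) ω.1 + trues (AY \ E') ω.2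
            · rw [ind_true hb, ← pow_add, one_div, ← div_eq_inv_mul, le_div_iff₀ (by positivity),
                one_mul]
              exact pow_le_pow_right₀ (by norm_num) hb
            · rw [ind_false hb]
              positivity
          have hnn : 0 ≤ Wt α ω.1 * Wt α ω.2 * (ind (Agr E X0 ω.1) * ind (Agr E' Y0 ω.2)) :=
            mul_nonneg (mul_nonneg hw1 hw2) (mul_nonneg (ind_nonneg _) (ind_nonneg _))
          calc Wt α ω.1 * Wt α ω.2 * (ind (Agr E X0 ω.1) * ind (Agr E' Y0 ω.2) *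
                ind (5 * q + 6 ≤ trues (AX \ E) ω.1 + trues (AY \ E') ω.2))
              = (Wt α ω.1 * Wt α ω.2 * (ind (Agr E X0 ω.1) * ind (Agr E' Y0 ω.2))) *
                ind (5 * q + 6 ≤ trues (AX \ E) ω.1 + trues (AY \ E') ω.2) := by ring
            _ ≤ (Wt α ω.1 * Wt α ω.2 * (ind (Agr E X0 ω.1) * ind (Agr E' Y0 ω.2))) *
                (1 / 2 ^ (5 * q + 6) * (2 ^ trues (AX \ E) ω.1 * 2 ^ trues (AY \ E') ω.2)) :=
                mul_le_mul_of_nonneg_left hi hnn
            _ = _ := by ring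
        have hnn1 : 0 ≤ ∑ X : Fam u k, Wt α X * (ind (Agr E' Y0 X) * 2 ^ trues (AY \ E') X) :=
          sum_nonneg fun X _ => mul_nonneg (Wt_nonneg hα0.le hα1 X)
            (mul_nonneg (ind_nonneg _) (by positivity))
        calc ∑ ω : Fam u k × Fam u k, Wt α ω.1 * Wt α ω.2 *
              ind ((Agr E X0 ω.1 ∧ Agr E' Y0 ω.2) ∧
                5 * q + 6 ≤ trues (AX \ E) ω.1 + trues (AY \ E') ω.2)
            ≤ ∑ ω : Fam u k × Fam u k, 1 / 2 ^ (5 * q + 6) *
              ((Wt α ω.1 * (ind (Agr E X0 ω.1) * 2 ^ trues (AX \ E) ω.1)) *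
              (Wt α ω.2 * (ind (Agr E' Y0 ω.2) * 2 ^ trues (AY \ E') ω.2))) :=
              sum_le_sum fun ω _ => hpt ω
          _ = 1 / 2 ^ (5 * q + 6) *
              ((∑ X : Fam u k, Wt α X * (ind (Agr E X0 X) * 2 ^ trues (AX \ E) X)) *
              ∑ X : Fam u k, Wt α X * (ind (Agr E' Y0 X) * 2 ^ trues (AY \ E') X)) := by
              rw [← mul_sum, sum_mul_sum, ← univ_product_univ, sum_product]
          _ ≤ 1 / 2 ^ (5 * q + 6) *
              ((mu α (Agr E X0) * 2 ^ L) * (mu α (Agr E' Y0) * 2 ^ L)) := by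
              apply mul_le_mul_of_nonneg_left _ (by positivity)
              exact mul_le_mul m1 m2 hnn1 (mul_nonneg (hF0.trans hFn) (by positivity))
          _ = (mu α (Agr E X0) * mu α (Agr E' Y0)) * (2 ^ (2 * L) / 2 ^ (5 * q + 6)) := by
              rw [two_mul, pow_add]
              ring
          _ ≤ (4 ^ q * x) * (1 / 16 * (1 / 4 ^ q)) := by
              apply mul_le_mul hνx _ (by positivity) (by positivity)
              rw [div_le_iff₀ (by positivity)]
              have h1 : (2 : ℝ) ^ (2 * L) ≤ 2 ^ (3 * q + 1) :=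
                pow_le_pow_right₀ (by norm_num) hL2
              refine h1.trans ?_
              have h2 : (4 : ℝ) ^ q = 2 ^ (2 * q) := by rw [pow_mul]; norm_num
              rw [h2]
              have h3 : (2 : ℝ) ^ (5 * q + 6) = 2 ^ (3 * q + 1) * (2 ^ (2 * q) * 32) := by
                rw [show 5 * q + 6 = (3 * q + 1) + (2 * q + 5) by ring, pow_add, pow_add 2 (2 * q) 5]
                norm_num
              rw [h3]
              have h5 : (0 : ℝ) < 2 ^ (2 * q) := by positivity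
              have h6 : 1 / 16 * (1 / (2 : ℝ) ^ (2 * q)) * (2 ^ (3 * q + 1) * (2 ^ (2 * q) * 32)) =
                  2 * 2 ^ (3 * q + 1) := by
                field_simp
                norm_num
              rw [h6]
              have h7 : (0 : ℝ) < 2 ^ (3 * q + 1) := by positivity
              linarith
          _ = 1 / 16 * x := by
              field_simp
      obtain ⟨⟨X1, Y1⟩, ⟨hR1, hR2⟩, hnb, hxp, hfin⟩ := hcsl hx0 hcase.le hbig
      simp only at hR1 hR2 hnb
      have hagX := hFtA X1 hR1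
      have hagY := hGtA Y1 hR2
      have hiffX : ∀ X, ((Ft X ∧ Agr (E ∪ (AX \ E)) X1 X) ↔ (F X ∧ Agr (E ∪ (AX \ E)) X1 X)) := by
        intro X
        rw [hFt]
        constructor
        · rintro ⟨⟨h1, _⟩, h2⟩
          exact ⟨h1, h2⟩
        · rintro ⟨h1, h2⟩
          exact ⟨⟨h1, Agr.trans' subset_union_left hagX h2⟩, h2⟩
      have hiffY : ∀ Y, ((Gt Y ∧ Agr (E' ∪ (AY \ E')) Y1 Y) ↔
          (G Y ∧ Agr (E' ∪ (AY \ E')) Y1 Y)) := by
        intro Y
        rw [hGt]
        constructor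
        · rintro ⟨⟨h1, _⟩, h2⟩
          exact ⟨h1, h2⟩
        · rintro ⟨h1, h2⟩
          exact ⟨⟨h1, Agr.trans' subset_union_left hagY h2⟩, h2⟩
      have f1 : ∑ ω : Fam u k × Fam u k, Wt α ω.1 * Wt α ω.2 *
          ind (((Ft ω.1 ∧ Gt ω.2) ∧ ∀ d ∈ D, Disj ω.1 ω.2 d) ∧
            (mask (E ∪ (AX \ E)) ω.1, mask (E' ∪ (AY \ E')) ω.2) =
            (mask (E ∪ (AX \ E)) X1, mask (E' ∪ (AY \ E')) Y1)) =
          xx α D (fun X => F X ∧ Agr (E ∪ (AX \ E)) X1 X)
            (fun Y => G Y ∧ Agr (E' ∪ (AY \ E')) Y1 Y) := by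
        unfold xx
        rw [EE_pair]
        refine sum_congr rfl fun ω _ => ?_
        congr 1
        rw [← ind_and, ← ind_and]
        apply ind_congr
        rw [Prod.mk.injEq, mask_eq, mask_eq]
        have a1 := hiffX ω.1
        have a2 := hiffY ω.2
        constructor
        · rintro ⟨⟨⟨h1, h2⟩, h3⟩, h4, h5⟩
          exact ⟨⟨a1.1 ⟨h1, h4⟩, a2.1 ⟨h2, h5⟩⟩, h3⟩
        · rintro ⟨⟨h1, h2⟩, h3⟩
          exact ⟨⟨⟨(a1.2 h1).1, (a2.2 h2).1⟩, h3⟩, (a1.2 h1).2, (a2.2 h2).2⟩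
      have f2 : ∑ ω : Fam u k × Fam u k, Wt α ω.1 * Wt α ω.2 *
          ind ((Ft ω.1 ∧ Gt ω.2) ∧
            (mask (E ∪ (AX \ E)) ω.1, mask (E' ∪ (AY \ E')) ω.2) =
            (mask (E ∪ (AX \ E)) X1, mask (E' ∪ (AY \ E')) Y1)) =
          mu α (fun X => F X ∧ Agr (E ∪ (AX \ E)) X1 X) *
            mu α (fun Y => G Y ∧ Agr (E' ∪ (AY \ E')) Y1 Y) := by
        rw [← EE_prod, EE_pair]
        refine sum_congr rfl fun ω _ => ?_
        congr 1
        rw [← ind_and]
        apply ind_congr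
        rw [Prod.mk.injEq, mask_eq, mask_eq]
        have a1 := hiffX ω.1
        have a2 := hiffY ω.2
        constructor
        · rintro ⟨⟨h1, h2⟩, h4, h5⟩
          exact ⟨a1.1 ⟨h1, h4⟩, a2.1 ⟨h2, h5⟩⟩
        · rintro ⟨h1, h2⟩
          exact ⟨⟨(a1.2 h1).1, (a2.2 h2).1⟩, (a1.2 h1).2, (a2.2 h2).2⟩
      have f3 : ∑ ω : Fam u k × Fam u k, Wt α ω.1 * Wt α ω.2 *
          ind ((Agr E X0 ω.1 ∧ Agr E' Y0 ω.2) ∧
            (mask (E ∪ (AX \ E)) ω.1, mask (E' ∪ (AY \ E')) ω.2) =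
            (mask (E ∪ (AX \ E)) X1, mask (E' ∪ (AY \ E')) Y1)) =
          mu α (Agr (E ∪ (AX \ E)) X1) * mu α (Agr (E' ∪ (AY \ E')) Y1) := by
        rw [← EE_prod, EE_pair]
        refine sum_congr rfl fun ω _ => ?_
        congr 1
        rw [← ind_and]
        apply ind_congr
        rw [Prod.mk.injEq, mask_eq, mask_eq]
        constructor
        · rintro ⟨_, h1, h2⟩
          exact ⟨h1, h2⟩
        · rintro ⟨h1, h2⟩
          exact ⟨⟨Agr.trans' subset_union_left hagX h1, Agr.trans' subset_union_left hagY h2⟩,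
            h1, h2⟩
      simp only at hxp hfin
      rw [f1] at hxp hfin
      rw [f2, f3] at hfin
      refine ⟨E ∪ (AX \ E), E' ∪ (AY \ E'), X1, Y1, subset_union_left, subset_union_left, hagX,
        hagY, ?_, ?_, ?_, ?_, hxp, ?_⟩
      · exact (card_union_le _ _).trans (Nat.add_le_add_left hcA _)
      · exact (card_union_le _ _).trans (Nat.add_le_add_left hcA' _)
      · have h1 : trues (E ∪ (AX \ E)) X1 ≤ trues E X1 + trues (AX \ E) X1 := by
          unfold trues
          rw [filter_union]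
          exact card_union_le _ _
        have h2 := trues_congr (Finset.Subset.refl E) hagX
        omega
      · have h1 : trues (E' ∪ (AY \ E')) Y1 ≤ trues E' Y1 + trues (AY \ E') Y1 := by
          unfold trues
          rw [filter_union]
          exact card_union_le _ _
        have h2 := trues_congr (Finset.Subset.refl E') hagY
        omega
      · rw [← hx]
        exact hfin
  rw [hFt, hGt, hα] at key
  exact key

end Pool.Agent.H91.TJ
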