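import Pool.Graph.R_seed8.Y516.OJ.AdFin

set_option autoImplicit false

/-!
# 3SUM-Indexing, one joint probe at an address which depends on BOTH arrays: definitions, statements

All statements `S_XXX` are independent parts; a part may use other ones as hypotheses
(`theorem t_XXX (h : S_YYY) : S_XXX`). Notation of the library (`Pool.Agent.Y516.OJ`):
`Fam u k = Fin u → Fin k → Bool` (set number `i` contains `e` iff `X e i = true`), `Wt α X` the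
probability of `X` if all bits are independent and true with probability `α`, `EE α h` the expectation
of `h X Y` for independent `X`, `Y`, `ind P` the indicator of `P`, `Disj X Y d`, `nInt D X Y`
(number of pairs in `D` which are not disjoint), `nErr`. Useful lemmas: namespace `Pool.Agent.Y85.OJ`
(`ind_nonneg`, `ind_true`, `ind_false`, `sum_wt`, `sum_Wt`, `wt_nonneg`, `Wt_nonneg`, `EE_mono`,
`EE_nonneg`, `EE_sum`, `EE_one`), file `Y516/OJ/Tail.lean` (`tot`, `sum_Wt_two`).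
-/

namespace Pool.Agent.H91.TJ

open Finset
open Pool.Agent.Y516.OJ (Fam wt Wt EE ind Disj nInt nErr Prot tot)

/-- A deterministic communication protocol between a player who knows `a : A` and a player who knows
`b : B`: at every node one of the two players sends one bit, which is an arbitrary function of
his input; the leaves carry results in `R`. -/
inductive JProt (A B R : Type) : Type
  | out (r : R) : JProt A B R
  | left (f : A → Bool) (p q : JProt A B R) : JProt A B R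
  | right (g : B → Bool) (p q : JProt A B R) : JProt A B R

namespace JProt

variable {A B R : Type}

/-- the result on the inputs `a`, `b` -/
def run : JProt A B R → A → B → R
  | out r, _, _ => r
  | left f p q, a, b => if f a then p.run a b else q.run a b
  | right g p q, a, b => if g b then p.run a b else q.run a b

/-- the maximal number of bits sent -/
def depth : JProt A B R → ℕ
  | out _ => 0
  | left _ p q => max p.depth q.depth + 1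
  | right _ p q => max p.depth q.depth + 1

end JProt

/-- A data structure for 3SUM-Indexing on two arrays of `n` numbers, with `s` joint cells of `w` bits,
each of them an arbitrary function of both arrays. The algorithm for the query `z` is a communication
protocol between the arrays; its result is the number of the joint cell which is read, and, for
every content of this cell, a further protocol which gives the answer. -/
structure SumJDS (n w s : ℕ) where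
  /-- the contents of the joint cells -/
  cell : (Fin n → ℕ) → (Fin n → ℕ) → Fin s → Fin (2 ^ w)
  /-- the query algorithms -/
  query : ℕ → JProt (Fin n → ℕ) (Fin n → ℕ)
    (Fin s × (Fin (2 ^ w) → Prot (Fin n → ℕ) (Fin n → ℕ)))

/-- the answer to the query `z` on the arrays `A`, `B` -/
def SumJDS.answer {n w s : ℕ} (D : SumJDS n w s) (A B : Fin n → ℕ) (z : ℕ) : Bool :=
  (((D.query z).run A B).2 (D.cell A B ((D.query z).run A B).1)).run A B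

/-- every protocol sends at most `b` bits, before and after the joint cell is read -/
def SumJDS.Bits {n w s : ℕ} (D : SumJDS n w s) (b : ℕ) : Prop :=
  ∀ z, (D.query z).depth ≤ b ∧ ∀ A B v, (((D.query z).run A B).2 v).depth ≤ b

/-- all queries `z < n ^ 2` (is `z` the sum of an entry of `A` and an entry of `B`?) are answered
correctly, for all arrays with entries at most `n ^ 2` -/
def SumJDS.Solves {n w s : ℕ} (D : SumJDS n w s) : Prop :=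
  ∀ A B : Fin n → ℕ, (∀ i, A i ≤ n ^ 2) → (∀ j, B j ≤ n ^ 2) → ∀ z : ℕ, z < n ^ 2 →
    (D.answer A B z = true ↔ ∃ i j, A i + B j = z)

/-- the probability of an event of one side -/
noncomputable def mu (α : ℝ) {u k : ℕ} (F : Fam u k → Prop) : ℝ := ∑ X, Wt α X * ind (F X)

/-- `X` and `X0` agree on the set `E` of coordinates -/
def Agr {u k : ℕ} (E : Finset (Fin u × Fin k)) (X0 X : Fam u k) : Prop :=
  ∀ c ∈ E, X c.1 c.2 = X0 c.1 c.2

/-- the number of coordinates in `E` which are true -/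
def trues {u k : ℕ} (E : Finset (Fin u × Fin k)) (X : Fam u k) : ℕ :=
  (E.filter fun c => X c.1 c.2 = true).card

/-- the probability of the part of the rectangle `F × G` where all pairs in `D` are disjoint -/
noncomputable def xx (α : ℝ) {u k : ℕ} (D : Finset (Fin k × Fin k)) (F G : Fam u k → Prop) : ℝ :=
  EE α fun X Y => ind (F X) * ind (G Y) * ind (∀ d ∈ D, Disj X Y d)

/-- some pair of `D` meets in an element which is in the sets `AX`, `AY` of coordinates -/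
def Bad {u k : ℕ} (D : Finset (Fin k × Fin k)) (AX AY : Finset (Fin u × Fin k)) (X Y : Fam u k) :
    Prop :=
  ∃ d ∈ D, ∃ e, (e, d.1) ∈ AX ∧ (e, d.2) ∈ AY ∧ X e d.1 = true ∧ Y e d.2 = true

/-! ### Purification -/

/-- (MOM) Exponential moments. The coordinates in `A` are independent of those in `E`, and
`E[2 ^ trues A X] = (1 + α) ^ |A| ≤ exp (α |A|) ≤ 2 ^ (3 / 2 α |A|)`. -/
def S_MOM : Prop := ∀ (u k L : ℕ) (α : ℝ) (E A : Finset (Fin u × Fin k)) (X0 : Fam u k),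
  0 ≤ α → α ≤ 1 → Disjoint E A → 3 / 2 * α * A.card ≤ L →
  ∑ X, Wt α X * (ind (Agr E X0 X) * 2 ^ trues A X) ≤ mu α (Agr E X0) * 2 ^ L

/-- (AVG) From MOM: for a natural number `N` and `L' = 2 q + L`: `N ≤ L' + 2 ^ N / 2 ^ L'`. Sum over
`F` with `N = trues A X`: `∑_{c ∈ A} mu (F ∧ X c) = ∑_X Wt ind(F) trues A X
≤ L' mu F + 2 ^ (- L') mu (Agr) 2 ^ L ≤ (L' + 1) mu F`. -/
def S_AVG : Prop := ∀ (u k q L : ℕ) (α : ℝ) (E A : Finset (Fin u × Fin k)) (X0 : Fam u k)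
  (F : Fam u k → Prop), 0 ≤ α → α ≤ 1 → Disjoint E A → 3 / 2 * α * A.card ≤ L →
  (∀ X, F X → Agr E X0 X) → mu α (Agr E X0) ≤ 4 ^ q * mu α F →
  ∑ c ∈ A, mu α (fun X => F X ∧ X c.1 c.2 = true) ≤ (2 * q + L + 1) * mu α F

/-- (CNT) From AVG with `L = ⌈3 / 2 |A| / M⌉`: `4 |A| / M ≤ 2 q + 2 + 3 / 2 |A| / M`, so
`|A| / M ≤ (4 q + 4) / 5 ≤ q`. -/
def S_CNT : Prop := ∀ (u k q M : ℕ) (E A : Finset (Fin u × Fin k)) (X0 : Fam u k)
  (F : Fam u k → Prop), 5 ≤ q → 2 ≤ M → Disjoint E A → (∀ X, F X → Agr E X0 X) →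
  0 < mu (1 / (M : ℝ)) F → mu (1 / (M : ℝ)) (Agr E X0) ≤ 4 ^ q * mu (1 / (M : ℝ)) F →
  (∀ c ∈ A, 4 * (1 / (M : ℝ)) * mu (1 / (M : ℝ)) F ≤
    mu (1 / (M : ℝ)) (fun X => F X ∧ X c.1 c.2 = true)) →
  A.card ≤ q * M

/-- (SIZ) From AVG (`A` = coordinates `(e, i)` not in `E`, at most `u` of them) and: for
`(e, i) ∈ E` the probability is `mu F` if `X0 e i = true` and `0` otherwise. -/
def S_SIZ : Prop := ∀ (u k q M : ℕ) (E : Finset (Fin u × Fin k)) (X0 : Fam u k)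
  (F : Fam u k → Prop) (i : Fin k), 2 ≤ M → (∀ X, F X → Agr E X0 X) →
  mu (1 / (M : ℝ)) (Agr E X0) ≤ 4 ^ q * mu (1 / (M : ℝ)) F →
  ∑ e, mu (1 / (M : ℝ)) (fun X => F X ∧ X e i = true) ≤
    (trues E X0 + 2 * q + 2 + 3 / 2 * ((u : ℝ) / M)) * mu (1 / (M : ℝ)) F

/-- (CSL) Refinement by Cauchy-Schwarz. `π` is a partition of `Ω` in classes, `L ⊇ R` sets,
`x = W(R ∧ Dj)`, `y = W(R)`, `ν = W(L)`; `x_c, y_c, ν_c` the same in the class `c`. If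
`W(R ∧ ¬ Bad) ≤ 3/4 y` and `W(L ∧ Big) ≤ x / 16` then there is a class which is not Big with
`x_c > 0` and `y_c ν_c / x_c ^ 2 ≤ 7/8 y ν / x ^ 2`. Proof: otherwise
`x_c < x sqrt (8/7) sqrt (y_c ν_c) / sqrt (y ν)` for all classes with `x_c > 0` which are not Big;
such classes are not Bad (because `Dj → ¬ Bad`); sum over these classes: the left side is
`≥ x - x / 16` and the right side `≤ x sqrt (8/7) sqrt (3/4) = 0.926 x`. -/
def S_CSL : Prop := ∀ (Ω C : Type) [Fintype Ω] [Fintype C] (W : Ω → ℝ) (π : Ω → C)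
  (L R Dj Ba Big : Ω → Prop), (∀ ω, 0 ≤ W ω) → (∀ ω, R ω → L ω) → (∀ ω, Dj ω → ¬ Ba ω) →
  (∀ ω ω', π ω = π ω' → (Ba ω ↔ Ba ω')) → (∀ ω ω', π ω = π ω' → (Big ω ↔ Big ω')) →
  0 < ∑ ω, W ω * ind (R ω ∧ Dj ω) →
  ∑ ω, W ω * ind (R ω ∧ ¬ Ba ω) ≤ 3 / 4 * ∑ ω, W ω * ind (R ω) →
  ∑ ω, W ω * ind (L ω ∧ Big ω) ≤ 1 / 16 * ∑ ω, W ω * ind (R ω ∧ Dj ω) →
  ∃ ω₀, R ω₀ ∧ ¬ Big ω₀ ∧ 0 < ∑ ω, W ω * ind ((R ω ∧ Dj ω) ∧ π ω = π ω₀) ∧
    (∑ ω, W ω * ind (R ω ∧ π ω = π ω₀)) * (∑ ω, W ω * ind (L ω ∧ π ω = π ω₀)) *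
      (∑ ω, W ω * ind (R ω ∧ Dj ω)) ^ 2 ≤
    7 / 8 * ((∑ ω, W ω * ind (R ω)) * ∑ ω, W ω * ind (L ω)) *
      (∑ ω, W ω * ind ((R ω ∧ Dj ω) ∧ π ω = π ω₀)) ^ 2

/-- (DIC) If heavy elements rarely meet, then few pairs meet. Proof: if `nInt > m / 2` then `Bad` or
more than `m / 2` pairs of `D` meet in an element `e` with `(e, i) ∉ AX` or `(e, j) ∉ AY`. The
expected number of pairs of the second kind (on `F × G`) is at most
`∑_{(i,j) ∈ D} ∑_e (4 α mu F mu (G ∧ Y e j) + 4 α mu G mu (F ∧ X e i)) ≤ 8 α m S mu F mu G`,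
so by Markov the probability of more than `m / 2` is at most `16 α S mu F mu G ≤ mu F mu G / 4`. -/
def S_DIC : Prop := ∀ (u k m M : ℕ) (S : ℝ) (D : Finset (Fin k × Fin k)) (F G : Fam u k → Prop)
  (AX AY : Finset (Fin u × Fin k)), D.card = m → 1 ≤ m → 2 ≤ M →
  (∀ c, c ∉ AX → mu (1 / (M : ℝ)) (fun X => F X ∧ X c.1 c.2 = true) ≤
    4 * (1 / (M : ℝ)) * mu (1 / (M : ℝ)) F) →
  (∀ c, c ∉ AY → mu (1 / (M : ℝ)) (fun Y => G Y ∧ Y c.1 c.2 = true) ≤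
    4 * (1 / (M : ℝ)) * mu (1 / (M : ℝ)) G) →
  (∀ i, ∑ e, mu (1 / (M : ℝ)) (fun X => F X ∧ X e i = true) ≤ S * mu (1 / (M : ℝ)) F) →
  (∀ j, ∑ e, mu (1 / (M : ℝ)) (fun Y => G Y ∧ Y e j = true) ≤ S * mu (1 / (M : ℝ)) G) →
  S / M ≤ 1 / 64 →
  3 / 4 * (mu (1 / (M : ℝ)) F * mu (1 / (M : ℝ)) G) ≤
    EE (1 / (M : ℝ)) (fun X Y => ind (F X) * ind (G Y) * ind (¬ Bad D AX AY X Y)) →
  1 / 2 * (mu (1 / (M : ℝ)) F * mu (1 / (M : ℝ)) G) ≤
    EE (1 / (M : ℝ)) (fun X Y => ind (F X) * ind (G Y) * ind (2 * nInt D X Y ≤ m))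

/-- (STEP) One step of the purification. `F_t = F ∧ Agr E X0`, `G_t = G ∧ Agr E' Y0`,
`x = xx D F_t G_t`, `y = mu F_t * mu G_t`, `ν = mu (Agr E X0) * mu (Agr E' Y0)`, hypothesis
`y ν ≤ 4 ^ q x ^ 2`. From `x ≤ y` and `mu G_t ≤ mu (Agr E' Y0)` etc. it follows that
`ν ≤ 4 ^ q x` and `mu (Agr E X0) ≤ 4 ^ q mu F_t`, the same for `G`. `AX` = all coordinates `c` with
`4 α mu F_t ≤ mu (F_t ∧ X c)`, `AY` similarly; `A = AX \ E`, `A' = AY \ E'` have at most `q M`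
elements by CNT. If `3/4 y ≤ EE (F_t G_t ¬Bad)` use DIC with
`S = 66 q ^ 2 + 2 q + 2 + 3 / 2 u / M` from SIZ (`S / M ≤ 1 / 64` by `35328 q ^ 2 ≤ M` and
`768 u ≤ M ^ 2`). Otherwise use CSL on `Ω = Fam × Fam` with the partition by the values on
`E ∪ A`, `E' ∪ A'` (`C = Fam × Fam`, values outside masked by `false`), `L = Agr × Agr`,
`Big = (5 q + 6 ≤ trues A X + trues A' Y)`; by MOM
`W (L ∧ Big) ≤ 2 ^ (3 q + 2) / 2 ^ (5 q + 6) ν ≤ 4 ^ (-q) ν / 16 ≤ x / 16`. -/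
def S_STEP : Prop := ∀ (u k m q M : ℕ) (D : Finset (Fin k × Fin k)) (F G : Fam u k → Prop)
  (E E' : Finset (Fin u × Fin k)) (X0 Y0 : Fam u k), D.card = m → 1 ≤ m → 5 ≤ q →
  35328 * q ^ 2 ≤ M → 768 * u ≤ M ^ 2 →
  0 < xx (1 / (M : ℝ)) D (fun X => F X ∧ Agr E X0 X) (fun Y => G Y ∧ Agr E' Y0 Y) →
  (mu (1 / (M : ℝ)) (fun X => F X ∧ Agr E X0 X) * mu (1 / (M : ℝ)) (fun Y => G Y ∧ Agr E' Y0 Y)) *
    (mu (1 / (M : ℝ)) (Agr E X0) * mu (1 / (M : ℝ)) (Agr E' Y0)) ≤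
    4 ^ q * xx (1 / (M : ℝ)) D (fun X => F X ∧ Agr E X0 X) (fun Y => G Y ∧ Agr E' Y0 Y) ^ 2 →
  trues E X0 ≤ 66 * q ^ 2 → trues E' Y0 ≤ 66 * q ^ 2 →
  (1 / 2 * (mu (1 / (M : ℝ)) (fun X => F X ∧ Agr E X0 X) *
      mu (1 / (M : ℝ)) (fun Y => G Y ∧ Agr E' Y0 Y)) ≤
    EE (1 / (M : ℝ)) (fun X Y => ind (F X ∧ Agr E X0 X) * ind (G Y ∧ Agr E' Y0 Y) *
      ind (2 * nInt D X Y ≤ m))) ∨
  ∃ (E1 E1' : Finset (Fin u × Fin k)) (X1 Y1 : Fam u k),
    E ⊆ E1 ∧ E' ⊆ E1' ∧ Agr E X0 X1 ∧ Agr E' Y0 Y1 ∧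
    E1.card ≤ E.card + q * M ∧ E1'.card ≤ E'.card + q * M ∧
    trues E1 X1 ≤ trues E X0 + 6 * q ∧ trues E1' Y1 ≤ trues E' Y0 + 6 * q ∧
    0 < xx (1 / (M : ℝ)) D (fun X => F X ∧ Agr E1 X1 X) (fun Y => G Y ∧ Agr E1' Y1 Y) ∧
    ((mu (1 / (M : ℝ)) (fun X => F X ∧ Agr E1 X1 X) *
        mu (1 / (M : ℝ)) (fun Y => G Y ∧ Agr E1' Y1 Y)) *
      (mu (1 / (M : ℝ)) (Agr E1 X1) * mu (1 / (M : ℝ)) (Agr E1' Y1))) *
      xx (1 / (M : ℝ)) D (fun X => F X ∧ Agr E X0 X) (fun Y => G Y ∧ Agr E' Y0 Y) ^ 2 ≤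
    7 / 8 * ((mu (1 / (M : ℝ)) (fun X => F X ∧ Agr E X0 X) *
        mu (1 / (M : ℝ)) (fun Y => G Y ∧ Agr E' Y0 Y)) *
      (mu (1 / (M : ℝ)) (Agr E X0) * mu (1 / (M : ℝ)) (Agr E' Y0))) *
      xx (1 / (M : ℝ)) D (fun X => F X ∧ Agr E1 X1 X) (fun Y => G Y ∧ Agr E1' Y1 Y) ^ 2

/-- (PUR) Purification: a rectangle which contains enough points where all pairs of `D` are disjoint
contains a rectangle which is not too small and in which, with probability at least `1/2`, at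
most half of the pairs of `D` meet. Proof: iterate STEP, starting with `E = E' = ∅`; after `t`
steps `y ν / x ^ 2 ≤ (7/8) ^ t 4 ^ q`, `|E| ≤ t q M`, `trues E X0 ≤ 6 q t`. Always
`y ν ≥ x ^ 2`; since `(7/8) ^ (11 q) 4 ^ q < 1`, STEP must give its first alternative for some
`t < 11 q`. There `y ≥ x ≥ 4 ^ (-q) ν` (from `ν x ≤ ν y ≤ 4 ^ q x ^ 2`) and
`mu (Agr E X0) = ∏_{c ∈ E} (α or 1 - α) ≥ (1 / M) ^ (66 q ^ 2) (1 - 1 / M) ^ (11 q ^ 2 M)` with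
`(1 - 1 / M) ^ M ≥ 1 / 4`. -/
def S_PUR : Prop := ∀ (u k m q M : ℕ) (D : Finset (Fin k × Fin k)) (F G : Fam u k → Prop),
  D.card = m → 1 ≤ m → 5 ≤ q → 35328 * q ^ 2 ≤ M → 768 * u ≤ M ^ 2 →
  (1 / 2 : ℝ) ^ q ≤ xx (1 / (M : ℝ)) D F G →
  ∃ F1 G1 : Fam u k → Prop, (∀ X, F1 X → F X) ∧ (∀ Y, G1 Y → G Y) ∧
    (1 / (M : ℝ)) ^ (132 * q ^ 2) * (1 / 2) ^ (46 * q ^ 2) ≤
      mu (1 / (M : ℝ)) F1 * mu (1 / (M : ℝ)) G1 ∧
    1 / 2 * (mu (1 / (M : ℝ)) F1 * mu (1 / (M : ℝ)) G1) ≤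
      EE (1 / (M : ℝ)) (fun X Y => ind (F1 X) * ind (G1 Y) * ind (2 * nInt D X Y ≤ m))

/-! ### The choice of the queries -/

/-- (CHO) Choice of `m` queries and of a rectangle on which all of them read the same cell. Proof:
with probability `≥ 1/2` we have `tot X ≤ n`, `tot Y ≤ n` and at most half of the `k ^ 2` pairs
meet (Markov; the expectation of `tot X` is `u k α ≤ n / 768` and that of the number of meeting
pairs is at most `k ^ 2 u α ^ 2 ≤ k ^ 2 / 768`). Then more than `m s` queries are disjoint pairs,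
so more than `m` of them read the same cell; choose `m` of them (injection `e : Fin m → pairs`)
and their leaves (`Fin m → Fin (2 ^ b)`, leaf lemma as in
`Pool/Graph/R_pool_sql_team_seeded_707910d6/T2H60/HL/Joint.lean`, `leaves`). There are at most
`(k ^ 2) ^ m (2 ^ b) ^ m ≤ 2 ^ (m (l + b))` choices; by averaging one of them has the required
probability. For `d ∉ D` put `qq d v = out false`. -/
def S_CHO : Prop := ∀ (u k m b l s w n M : ℕ)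
  (qu : Fin k × Fin k → JProt (Fam u k) (Fam u k)
    (Fin s × (Fin (2 ^ w) → Prot (Fam u k) (Fam u k)))),
  1 ≤ m → 2 ≤ M → 768 * u ≤ M ^ 2 → k * M ≤ n → k ^ 2 ≤ 2 ^ l → 2 * m * s < k ^ 2 →
  (∀ d, (qu d).depth ≤ b ∧ ∀ X Y v, (((qu d).run X Y).2 v).depth ≤ b) →
  ∃ (D : Finset (Fin k × Fin k)) (a : Fin s)
    (qq : Fin k × Fin k → Fin (2 ^ w) → Prot (Fam u k) (Fam u k)) (F G : Fam u k → Prop),
    D.card = m ∧ (∀ X, F X → tot X ≤ n) ∧ (∀ Y, G Y → tot Y ≤ n) ∧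
    (∀ X Y, F X → G Y → ∀ d ∈ D, (qu d).run X Y = (a, qq d)) ∧
    (∀ d v, (qq d v).depth ≤ b) ∧
    (1 / 2 : ℝ) ^ (m * (l + b) + 1) ≤ xx (1 / (M : ℝ)) D F G

/-! ### The upper bound -/

/-- (UB3) The probability that the protocols are right on all pairs of `D` and that at most half of
the pairs meet, on a rectangle. Proof: as `ub2` in
`Pool/Graph/R_seed8/Y516/OJ/Ub2.lean` with `r = 0` and with an event on both sides; this gives
numbers `P R ≥ 0` (probabilities of the leaves in `F × G`) of sum `≤ mu F mu G` and the bound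
`((1 + ρ) / 2) ^ (m / 2) ∑ P R ^ (1 / p)`. The inequality `HolStm` for `P R / (mu F mu G)` gives
`∑ P R ^ (1 / p) ≤ (mu F mu G) ^ (1 / p) (2 ^ (b m)) ^ (2 m α)`. -/
def S_UB3 : Prop := ∀ (u k m b : ℕ) (α ρ : ℝ) (D : Finset (Fin k × Fin k))
  (p : Fin k × Fin k → Prot (Fam u k) (Fam u k)) (F G : Fam u k → Prop),
  0 < α → 10 * m * α ≤ 1 → 1 ≤ m → D.card = m → (∀ d, (p d).depth ≤ b) → 0 ≤ ρ → ρ ≤ 1 →
  (∀ n : ℕ, n ≤ m → (1 - α ^ 2 * n / 40) ^ u ≤ ρ ^ n) → 0 < mu α F * mu α G →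
  EE α (fun X Y => ind (F X) * ind (G Y) * ind (nErr D p X Y = 0 ∧ 2 * nInt D X Y ≤ m)) ≤
    ((1 + ρ) / 2) ^ ((m : ℝ) / 2) * (2 : ℝ) ^ ((b : ℝ) * m * (2 * m * α)) *
      (mu α F * mu α G) ^ (1 / (1 + 2 * (m : ℝ) * α))

/-- (NU1) Numerical: `u = M ^ 2 / 768 ≥ M ^ 2 / 1000`, so the left side is at most
`exp (- n / 40000)`, and `log (1 - 1 / 50000) ≥ - 1 / 49999`. -/
def S_NU1 : Prop := ∀ M n : ℕ, 10 ^ 6 ≤ M → n ≤ M →
  (1 - (1 / (M : ℝ)) ^ 2 * n / 40) ^ (M ^ 2 / 768) ≤ (1 - 1 / 50000 : ℝ) ^ n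

/-- (NU2) Numerical: `M ≤ 2 ^ q` (`400 m q ^ 3 ≤ 400 q ^ 4 ≤ 2 ^ q` since `q ≥ 10 ^ 6`), so
`y ^ (1 / p - 1) ≤ (1 / y) ^ δ ≤ 2 ^ (178 q ^ 3 δ) ≤ 2 ^ 0.9` for `δ = 2 m / M`,
`2 ^ (b m δ) ≤ 2`, and `2 ^ w (1 - 10 ^ (-5)) ^ (m / 2) ≤ 2 ^ w exp (-5 w)`. -/
def S_NU2 : Prop := ∀ (w b l m q M : ℕ) (y : ℝ), 1 ≤ w → 1 ≤ b → m = 10 ^ 6 * w →
  q = m * (l + b) + 1 → M = 400 * m * q ^ 3 →
  (1 / (M : ℝ)) ^ (132 * q ^ 2) * (1 / 2) ^ (46 * q ^ 2) ≤ y → y ≤ 1 →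
  (2 : ℝ) ^ w * (((1 + (1 - 1 / 50000 : ℝ)) / 2) ^ ((m : ℝ) / 2) *
    (2 : ℝ) ^ ((b : ℝ) * m * (2 * m * (1 / (M : ℝ)))) *
      y ^ (1 / (1 + 2 * (m : ℝ) * (1 / (M : ℝ))))) < 1 / 2 * y

/-! ### Assembly -/

/-- (COR) The core theorem for families. Proof: if `2 m s < k ^ 2` take `D, a, qq, F, G` from CHO,
`F1, G1` from PUR. For `X ∈ F1`, `Y ∈ G1` and `v = J X Y a` the protocols `qq d v` are right on
`D`, so `ind (2 nInt ≤ m) ≤ ∑ v, ind (nErr D (qq · v) = 0 ∧ 2 nInt ≤ m)`, and UB3 for each `v`,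
NU1, NU2 give a contradiction. -/
def S_COR : Prop := ∀ (w b l m q M k s n u : ℕ)
  (J : Fam u k → Fam u k → Fin s → Fin (2 ^ w))
  (qu : Fin k × Fin k → JProt (Fam u k) (Fam u k)
    (Fin s × (Fin (2 ^ w) → Prot (Fam u k) (Fam u k)))),
  1 ≤ w → 1 ≤ b → m = 10 ^ 6 * w → q = m * (l + b) + 1 → M = 400 * m * q ^ 3 →
  u = M ^ 2 / 768 → k * M ≤ n → k ^ 2 ≤ 2 ^ l →
  (∀ d, (qu d).depth ≤ b ∧ ∀ X Y v, (((qu d).run X Y).2 v).depth ≤ b) →
  (∀ X Y, tot X ≤ n → tot Y ≤ n → ∀ d,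
    ((((qu d).run X Y).2 (J X Y ((qu d).run X Y).1)).run X Y = true ↔ ¬ Disj X Y d)) →
  k ^ 2 ≤ 2 * m * s

/-- (RES) The main theorem. Proof: COR with `k = n / M`, coding of
`Pool/Graph/R_seed8/Y516/OJ/SumFin.lean` (`SA`, `SB`, `toArr`, `zz`, `sum_iff`, `arrA_le`,
`arrB_le`, `zz_lt`) as in `sum_ad` of `AdFin.lean`. If `k = 0` then `n < M`. -/
def S_RES : Prop := ∀ (n w b l s : ℕ), 1 ≤ w → 1 ≤ b → n ^ 2 ≤ 2 ^ l →
  ∀ D : SumJDS n w s, D.Bits b → D.Solves →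
    n ^ 2 ≤ 10 ^ 62 * w ^ 9 * (b + l) ^ 6 * s

end Pool.Agent.H91.TJ
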